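import Pool.Agent.W627.LT.Stm

set_option autoImplicit false

namespace Pool.Agent.W971.LT

open Finset Filter NumberField Pool.Agent.H38R2.CG Pool.Agent.W627.LT
open scoped Classical

theorem tor_le (K : Type) [Field K] [NumberField K] (l : ℕ) :
    tor K l ≤ Nat.card (ClassGroup (𝓞 K)) :=
  Nat.card_le_card_of_injective (fun c : {c : ClassGroup (𝓞 K) // c ^ l = 1} => c.1)
    Subtype.val_injective

/-- LTG: the criterion from the other parts. -/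
theorem ltg (h0 : P_N0d) (h3 : P_N3a) (hA : S_A) (hF : S_F) (hL : S_L) (hH : S_H) (hM : S_M) :
    S_G := by
  intro ε hε
  obtain ⟨C, hC, hLC⟩ := hL h3
  obtain ⟨A0, hA0, hA1⟩ := hA (2 * C) ε (by positivity) hε
  refine ⟨A0, hA0, fun A hAA => ?_⟩
  obtain ⟨X0, hX0, hA2⟩ := hA1 A hAA
  refine ⟨X0, hX0, fun X hX d hd hsq hdX hcard => ?_⟩
  intro K _ _ hfr hx l hl
  obtain ⟨D, hDf, hdisc, hD4, hchi⟩ := hF h0 K d hd hsq hfr hx
  have hD1 : 1 < D := hDf.1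
  have habs : |(discr K : ℝ)| = (D : ℝ) := by
    rw [hdisc]
    simp
  rw [habs]
  have hlog : Lone D ≤ C * Real.log D := hLC D hDf
  have hsqrt : 0 ≤ 2 * √(D : ℝ) := by positivity
  have hLD : 2 * √(D : ℝ) * Lone D ≤ 2 * C * √(D : ℝ) * Real.log D := by
    have := mul_le_mul_of_nonneg_left hlog hsqrt
    linarith
  have hT : (tor K l : ℝ) ≤ 2 * C * √(D : ℝ) * Real.log D := by
    have h1 : (tor K l : ℝ) ≤ (Nat.card (ClassGroup (𝓞 K)) : ℝ) := by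
      exact_mod_cast tor_le K l
    exact h1.trans ((hH K D hDf hfr hdisc).trans hLD)
  have hDX : (D : ℝ) ≤ 4 * X ^ 2 := by
    have h1 : (D : ℝ) ≤ 4 * (d : ℝ) := by exact_mod_cast hD4
    linarith
  refine hA2 X hX D (SQ ⌊Real.log X ^ A⌋₊ d).card l (tor K l) hD1 hDX hl (Nat.cast_nonneg _) hT
    hcard ?_
  intro k hk
  refine (hM K D hDf hfr hdisc ⌊Real.log X ^ A⌋₊ k l hl (SQ ⌊Real.log X ^ A⌋₊ d) ?_ hk).trans hLD
  intro p hp
  unfold SQ PQ at hp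
  rw [Finset.mem_filter, Finset.mem_filter, Finset.mem_Icc] at hp
  obtain ⟨⟨⟨hp3, hpy⟩, hpp⟩, hpd, hj⟩ := hp
  refine ⟨hpp, hpy, ?_⟩
  rw [hchi p hpp (by omega) hpd, hj]

end Pool.Agent.W971.LT
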